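import Pool.Agent.Helper65.CS.Goals2

/-! Packet CS-ALN: the number of the free variables. -/

set_option autoImplicit false

namespace Pool.Agent.Helper61.CS

open Pool.Agent.Helper81.CC Pool.Agent.Helper78.DT Pool.Agent.Helper51.ZP
open Pool.Agent.Helper65.CS

theorem mem_al {n : ℕ} {s : List (ℕ × Bool)} {v : ℕ} :
    v ∈ al n s ↔ v < n ∧ (v, true) ∉ s ∧ (v, false) ∉ s := by
  unfold al
  simp [List.mem_filter]

theorem nodup_al (n : ℕ) (s : List (ℕ × Bool)) : (al n s).Nodup :=
  List.nodup_range.filter _

theorem mem_fst {e : List (ℕ × Bool)} {v : ℕ} :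
    v ∈ e.map Prod.fst ↔ (v, true) ∈ e ∨ (v, false) ∈ e := by
  rw [List.mem_map]
  constructor
  · rintro ⟨⟨a, b⟩, h1, h2⟩
    have h2' : a = v := h2
    subst h2'
    cases b
    · exact Or.inr h1
    · exact Or.inl h1
  · rintro (h | h)
    · exact ⟨_, h, rfl⟩
    · exact ⟨_, h, rfl⟩

theorem aln : AlnStmt := by
  intro n e s he hes
  have h1 : (al n (e ++ s)).Perm ((al n s).filter (fun v => !decide (v ∈ e.map Prod.fst))) := by
    rw [List.perm_ext_iff_of_nodup (nodup_al _ _) ((nodup_al _ _).filter _)]
    intro v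
    rw [List.mem_filter, mem_al, mem_al, List.mem_append, List.mem_append, Bool.not_eq_true',
      decide_eq_false_iff_not, mem_fst]
    tauto
  have h2 : ((al n s).filter (fun v => decide (v ∈ e.map Prod.fst))).Perm (e.map Prod.fst) := by
    rw [List.perm_ext_iff_of_nodup ((nodup_al _ _).filter _) he]
    intro v
    rw [List.mem_filter, decide_eq_true_iff]
    constructor
    · exact fun h => h.2
    · intro h
      refine ⟨?_, h⟩
      obtain ⟨p, hp, hpv⟩ := List.mem_map.1 h
      rw [← hpv]
      exact hes p hp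
  have h3 := h2.length_eq
  rw [List.length_map] at h3
  have h4 := List.length_eq_length_filter_add (l := al n s) (fun v => decide (v ∈ e.map Prod.fst))
  rw [h1.length_eq]
  omega

end Pool.Agent.Helper61.CS
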